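import Mathlib
import Pool.Agent.H21.QIDefs
import Pool.Agent.H21.QI

namespace Pool.Agent.Results.MP_9803f8_al.NotWeak

open Pool.Agent.H21.QI

lemma gen (Q : Type) [Group Q] [hQ : Group.FG Q] [Infinite Q] (z : Q) (h1 : z ≠ 1)
    (h2 : IsOfFinOrder z) (hc : ∀ q, q * z = z * q)
    (hN : ∀ N : Subgroup Q, N.Normal → N.FiniteIndex → z ∈ N) :
    ∃ (G H : Type) (_ : Group G) (_ : Group H), Group.FG G ∧ Group.FG H ∧ QuasiIso G H ∧
      HighlyTransitive H ∧ ∀ (K : Type) [Group K], Comm G K → ¬ HighlyTransitive K := by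
  classical
  obtain ⟨S, hS⟩ := hQ.out
  have hfin : Finite (Subgroup.zpowers z) := h2.finite_zpowers
  let Ω := Q ⧸ Subgroup.zpowers z
  have : Infinite Ω := by
    rw [← not_finite_iff_infinite]
    intro _
    exact not_finite_iff_infinite.2 ‹Infinite Q›
      (Finite.of_equiv _ (Subgroup.groupEquivQuotientProdSubgroup (s := Subgroup.zpowers z)).symm)
  let lam : Q →* Equiv.Perm Ω := MulAction.toPermHom Q Ω
  let ι : Q →* Equiv.Perm Ω × Q := lam.prod (MonoidHom.id Q)
  let o : Ω := ((1 : Q) : Ω)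
  let T : Finset (Equiv.Perm Ω × Q) :=
    S.image ι ∪ S.image fun s => (Equiv.swap o (s • o), 1)
  let G := Subgroup.closure (T : Set (Equiv.Perm Ω × Q))
  have hι : ∀ q, ι q ∈ G := fun q => by
    have : (⊤ : Subgroup Q) ≤ G.comap ι := by
      rw [← hS, Subgroup.closure_le]
      exact fun s hs => Subgroup.subset_closure (by simp [T]; exact .inl ⟨s, hs, rfl⟩)
    exact this trivial
  let H := G.map (MonoidHom.fst _ _)
  have hl : ∀ q, lam q ∈ H := fun q => ⟨_, hι q, rfl⟩
  have hcj : ∀ (q : Q) a b, Equiv.swap a b ∈ H → Equiv.swap (q • a) (q • b) ∈ H :=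
    fun q a b h => by
      have := H.mul_mem (H.mul_mem (hl q) h) (H.inv_mem (hl q))
      rwa [← Equiv.swap_apply_apply] at this
  have hsw : ∀ q : Q, Equiv.swap o (q • o) ∈ H := fun q => by
    have : q ∈ Subgroup.closure (S : Set Q) := by rw [hS]; trivial
    induction this using Subgroup.closure_induction with
    | mem s hs => exact ⟨(_, 1), Subgroup.subset_closure (by simp [T]; exact .inr ⟨s, hs, rfl⟩), rfl⟩
    | one => rw [one_smul, Equiv.swap_self]; exact H.one_mem
    | mul a b _ _ ha hb =>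
      rw [mul_smul]
      exact SubmonoidClass.swap_mem_trans H ha (hcj a _ _ hb)
    | inv a _ ha => simpa [Equiv.swap_comm] using hcj a⁻¹ _ _ ha
  have hall : ∀ a b : Ω, Equiv.swap a b ∈ H := fun a b => by
    obtain ⟨p, rfl⟩ := MulAction.exists_smul_eq Q o a
    obtain ⟨q, rfl⟩ := MulAction.exists_smul_eq Q o b
    exact SubmonoidClass.swap_mem_trans H (by rw [Equiv.swap_comm]; exact hsw p) (hsw q)
  have hae : ∀ g ∈ G, {ω : Ω | g.1 ω ≠ g.2 • ω}.Finite := fun g hg => by
    induction hg using Subgroup.closure_induction with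
    | mem s hs =>
      rcases Finset.mem_union.1 hs with h | h
      · obtain ⟨s, -, rfl⟩ := Finset.mem_image.1 h
        simp [ι, lam]
      · obtain ⟨s, -, rfl⟩ := Finset.mem_image.1 h
        refine (Set.toFinite {o, s • o}).subset fun ω hω => ?_
        by_contra h
        simp only [Set.mem_insert_iff, Set.mem_singleton_iff, not_or] at h
        exact hω (by simp [Equiv.swap_apply_of_ne_of_ne h.1 h.2])
    | one => simp
    | mul a b _ _ ha hb =>
      refine (hb.union (ha.preimage b.1.injective.injOn)).subset fun ω hω => ?_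
      by_contra h
      simp only [Set.mem_union, Set.mem_ofPred_eq, Set.mem_preimage, not_or, not_not] at h
      exact hω (by simp [mul_smul, h.2, ← h.1])
    | inv a _ ha =>
      refine (ha.image a.1).subset fun ω hω => ⟨a.1⁻¹ ω, fun h => hω ?_, by simp⟩
      simp only [Prod.fst_inv, Prod.snd_inv]
      rw [eq_inv_smul_iff, ← h]
      simp
  have hcz : ∀ q, ∀ y ∈ Subgroup.zpowers z, q * y = y * q := by
    rintro q _ ⟨n, rfl⟩
    exact (Commute.zpow_right (hc q) n).eq
  have hG : Group.FG G := inferInstance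
  let π : G →* H := (MonoidHom.fst _ _).subgroupMap G
  have hπ : Function.Surjective π := MonoidHom.subgroupMap_surjective _ _
  refine ⟨G, H, inferInstance, inferInstance, hG, Group.fg_of_surjective hπ,
    qi_of_surj π hπ ?_, ht_of_swap H hall, ?_⟩
  · refine Set.Finite.of_finite_image (f := fun g : G => g.1.2)
      (h2.finite_zpowers.subset ?_) fun a ha b hb e => Subtype.ext (Prod.ext ?_ e)
    · rintro _ ⟨g, hg, rfl⟩
      have hg1 : g.1.1 = 1 := congrArg Subtype.val (MonoidHom.mem_ker.1 hg)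
      obtain ⟨ω, hω⟩ := (hae g.1 g.2).exists_notMem
      obtain ⟨x, rfl⟩ := QuotientGroup.mk_surjective ω
      simp only [hg1, Set.mem_ofPred_eq, not_not] at hω
      have : x⁻¹ * (g.1.2 * x) ∈ Subgroup.zpowers z := QuotientGroup.eq.1 hω
      have e := hcz x _ this
      rw [mul_inv_cancel_left, mul_left_inj] at e
      rw [← e] at this
      exact this
    · exact (congrArg Subtype.val (MonoidHom.mem_ker.1 ha)).trans
        (congrArg Subtype.val (MonoidHom.mem_ker.1 hb)).symm
  · rintro K _ ⟨A, B, hA, hB, ⟨φ⟩⟩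
    have hz : lam z = 1 := Equiv.ext fun ω => by
      obtain ⟨x, rfl⟩ := QuotientGroup.mk_surjective ω
      exact QuotientGroup.eq.2 (by simp [← hc x])
    let ι' : Q →* G := ι.codRestrict G hι
    have hζ : ι' z ∈ A := A.normalCore_le (hN (A.normalCore.comap ι') inferInstance
      ⟨by rw [Subgroup.index_comap]; exact Subgroup.FiniteIndex.index_ne_zero⟩)
    refine not_ht B (φ ⟨_, hζ⟩) (fun h => h1 ?_) fun b hb => ?_
    · have := φ.map_eq_one_iff.1 (Subtype.ext h)
      exact congrArg (fun a : A => a.1.1.2) this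
    · obtain ⟨a, ha⟩ := φ.surjective ⟨b, hb⟩
      have : a * ⟨_, hζ⟩ = ⟨_, hζ⟩ * a :=
        Subtype.ext (Subtype.ext (Prod.ext (by simp [ι', ι, hz]) (hc _)))
      have := congrArg (fun x => (φ x : K)) this
      simpa [ha] using this

abbrev X := (ℤ → ZMod 2) × ZMod 2 × ℤ

def t : Equiv.Perm X := Equiv.addRight (0, 0, 1)
def z : Equiv.Perm X := Equiv.addRight (0, 1, 0)

def e (j : ℤ) : Equiv.Perm X :=
  Function.Involutive.toPerm
    (fun x => (x.1 + Pi.single (x.2.2 + j) 1, x.2.1 + x.1 (x.2.2 + j + 1), x.2.2)) fun x => by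
      ext <;> simp [add_assoc, CharTwo.add_self_eq_zero]

lemma e_apply (j : ℤ) (x : X) :
    e j x = (x.1 + Pi.single (x.2.2 + j) 1, x.2.1 + x.1 (x.2.2 + j + 1), x.2.2) := rfl

lemma tpow (n : ℕ) : t ^ n = Equiv.addRight (0, 0, (n : ℤ)) := by
  induction n with
  | zero => ext x <;> simp
  | succ n ih => rw [pow_succ', ih]; ext x <;> simp [t, add_assoc]

lemma te (n : ℕ) (j : ℤ) : (t ^ n)⁻¹ * e j * t ^ n = e (n + j) := by
  rw [tpow]
  ext x <;> simp [e_apply, add_assoc]

lemma ee : e 0 * e 1 = z * (e 1 * e 0) := by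
  ext x <;> simp [e_apply, z, add_assoc, add_comm, add_left_comm, Pi.single_apply]

lemma ee' (j : ℤ) (h : 2 ≤ j) : e 0 * e j = e j * e 0 := by
  have h1 : ∀ a : ℤ, a + 1 ≠ a + j := fun a => by omega
  have h2 : ∀ a : ℤ, a + j + 1 ≠ a := fun a => by omega
  refine Equiv.ext fun x => Prod.ext ?_ (Prod.ext ?_ rfl)
  · simp [e_apply, add_right_comm]
  · simp only [Equiv.Perm.mul_apply, e_apply, add_zero, Pi.add_apply, Pi.single_eq_of_ne (h1 _),
      Pi.single_eq_of_ne (h2 _)]
    ring

def Q : Subgroup (Equiv.Perm X) := Subgroup.closure {t, e 0}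

theorem result : ∃ (G H : Type) (_ : Group G) (_ : Group H), Group.FG G ∧ Group.FG H ∧
    QuasiIso G H ∧ HighlyTransitive H ∧
      ∀ (K : Type) [Group K], Comm G K → ¬ HighlyTransitive K := by
  have ht : t ∈ Q := Subgroup.subset_closure (by simp)
  have he : ∀ n : ℕ, e n ∈ Q := fun n => by
    have h0 : e 0 ∈ Q := Subgroup.subset_closure (by simp)
    simpa [te] using Q.mul_mem (Q.mul_mem (Q.inv_mem (pow_mem ht n)) h0) (pow_mem ht n)
  have h0 : e 0 ∈ Q := he 0
  have h1 : e 1 ∈ Q := he 1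
  have hz : z ∈ Q := by
    rw [eq_mul_inv_of_mul_eq ee.symm]
    exact Q.mul_mem (Q.mul_mem h0 h1) (Q.inv_mem (Q.mul_mem h1 h0))
  have : Group.FG Q := Group.closure_finite_fg _
  have : Infinite Q := Infinite.of_injective (fun n : ℕ => (⟨t, ht⟩ : Q) ^ n) fun a b h => by
    have := congrArg (fun q : Q => (q.1 0).2.2) h
    simpa [tpow] using this
  refine gen Q ⟨z, hz⟩ (fun h => ?_) (isOfFinOrder_iff_pow_eq_one.2 ⟨2, two_pos, ?_⟩)
    (fun q => Subtype.ext ?_) fun N hN hi => ?_
  · simpa [z] using congrArg (fun q : Q => (q.1 0).2.1) h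
  · refine Subtype.ext ?_
    ext x <;> simp [z, sq, add_assoc, CharTwo.add_self_eq_zero]
  · have : Q ≤ Subgroup.centralizer {z} := by
      refine (Subgroup.closure_le _).2 fun g hg => ?_
      rcases hg with rfl | rfl
      · refine Subgroup.mem_centralizer_singleton_iff.2 ?_
        ext x <;> simp [z, t]
      · refine Subgroup.mem_centralizer_singleton_iff.2 ?_
        ext x <;> simp [z, e_apply, add_right_comm]
    exact Subgroup.mem_centralizer_singleton_iff.1 (this q.2)
  · let f := QuotientGroup.mk' N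
    have ha : f (⟨t, ht⟩ ^ N.index) = 1 := (QuotientGroup.eq_one_iff _).2 (N.pow_index_mem _)
    have hb : f ⟨_, he (N.index + 1)⟩ = f ⟨_, h1⟩ := by
      have : (⟨_, he (N.index + 1)⟩ : Q) =
          (⟨t, ht⟩ ^ N.index)⁻¹ * ⟨_, h1⟩ * ⟨t, ht⟩ ^ N.index :=
        Subtype.ext (by simp [te])
      rw [this, map_mul, map_mul, map_inv, ha]
      simp
    have hd : (⟨_, h0⟩ : Q) * ⟨_, he (N.index + 1)⟩ = ⟨_, he (N.index + 1)⟩ * ⟨_, h0⟩ :=
      Subtype.ext (ee' _ (by have := hi.1; omega))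
    have hf : (⟨_, h0⟩ : Q) * ⟨_, h1⟩ = ⟨z, hz⟩ * (⟨_, h1⟩ * ⟨_, h0⟩) := Subtype.ext ee
    have h3 := congrArg f hd
    have h4 := congrArg f hf
    simp only [map_mul, hb] at h3 h4
    have h5 : f ⟨z, hz⟩ = 1 := by simpa [h3] using h4
    exact (QuotientGroup.eq_one_iff _).1 h5

end Pool.Agent.Results.MP_9803f8_al.NotWeak
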